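import Pool.Agent.L5helper68.GD.Main

/-!
# Geometric origin descends along finitely generated extensions (MP_80bee4_ag)

`Ω` is the coefficient field `ℚ̄_ℓ`, `Gal L` is the absolute Galois group of `L`, `H L Y i` is the
cohomology `H^i(Y ⊗ L̄, Ω)` of a scheme `Y` over `L` with the action of `Gal L`, and `χ L` is the
cyclotomic character; the formal properties that are used (`IsEtaleTheory`) hold for all fields of
characteristic `p ≠ ℓ`: invariance under extensions of algebraically closed fields, the induced
representation for finite extensions, the Künneth formula, and Deligne's generic base change theorem on
the decomposition groups of closed points.

**Idea.** Let `ρ` be an irreducible representation of the Galois group of `K`, `M` a finitely generated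
extension of `K`, and suppose that `ρ` and the cohomology of a scheme `Y` over `M` have a common
constituent over `M`. Spread `Y` out over a variety `S` over `K` with function field `M` and restrict to
the decomposition group of a closed point: `ρ` and the cohomology of the fibre of `Y` have a common
constituent over a finite normal extension `K'` of `K`. By Clifford's theorem this constituent is a
subrepresentation of `ρ`, and by Frobenius reciprocity `ρ` is a subquotient of the representation induced
from the cohomology of the fibre, which is the cohomology of the fibre considered as a scheme over `K`.

Starting from the representations of the Galois groups of function fields of curves over finite fields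
(Lafforgue) one obtains the following cases of the question in all dimensions: all sheaves which over
some variety that dominates `X` (with fibres of any dimension) have a constituent in common with a sheaf
that is built from sheaves on curves by pull-backs along arbitrary rational maps, finite push-forwards,
tensor products and the same descent.
-/

set_option autoImplicit false

open Representation Pool.Agent.L5helper68.GD

namespace Pool.Agent.Results.MP_80bee4_ag.GeneratedFromCurves

/-- **Geometric origin: descent, and representations generated by a given class.**

(1) Let `M` be a finitely generated extension field of `K`, let `ρ` be an irreducible finite-dimensional
representation of the Galois group of `K` and `σ` any nonzero subquotient of its restriction to the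
Galois group of `M`. Then `ρ` is of geometric origin over `K` if and only if `σ` is of geometric origin
over `M`.

(2) The class of the representations of geometric origin is closed under subquotients, Tate twists,
tensor products, restriction to arbitrary field extensions, induction from finite extensions, and descent
along finitely generated extensions.

(3) If `𝓛` is a class of representations of geometric origin, for instance those in Lafforgue's theorem
for the function fields of curves, then all members of the closed class generated by `𝓛` are of geometric
origin. -/
theorem result {p : ℕ} {Ω : Type} [Field Ω] {H : Coh Ω} {χ : Cyc Ω} (hE : IsEtaleTheory p H χ) :
    DescentIff p (GO H χ) ∧ IsClosedClass p χ (GO H χ) ∧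
    ∀ 𝓛 : Cls Ω, Contained p (GO H χ) 𝓛 → Contained p (GO H χ) (Generated p χ 𝓛) :=
  ⟨descentIff_go hE, isClosedClass_go hE, fun _ h𝓛 _ _ _ _ h => h _ (isClosedClass_go hE) h𝓛⟩

end Pool.Agent.Results.MP_80bee4_ag.GeneratedFromCurves
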