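import Pool.Agent.L5helper68.FB.Final

/-!
# Geometric origin and fibrations (MP_80bee4_ag)

`𝓒` is a class of representations of the absolute Galois groups of fields of characteristic `p` with
the properties `SheafClass`, for instance the class in the question (continuous irreducible
`ℓ`-adic representations with determinant of finite order, unramified on a dense open subvariety), and
`𝓖` is a class with the properties `Closed`, for instance the class of the representations of
geometric origin (`closed_go`, the main point is the descent theorem of `GeneratedFromCurves`).

Suppose that the question has a positive answer in dimension at most `d`, that is, over all finitely
generated fields of transcendence degree at most `d` the members of `𝓒` are in `𝓖`. For `d = 1` this is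
Lafforgue's theorem. Let `X` be a variety of any dimension with function field `K`, and let `L` be a
subfield of (a finite extension of) `K` of transcendence degree at most `d`, that is, a fibration of `X`
over a base of dimension at most `d`.

1. A sheaf on `X` is of geometric origin if it has a constituent in common with some sheaf of
  geometric origin on the geometric generic fibre. So for a surface with a map to a curve the question is
  a question about sheaves on a curve over the algebraic closure of `F_p(t)`.

  Proof. The homomorphisms between the two sheaves on the geometric generic fibre form a sheaf on the
  base, which is of geometric origin by assumption.

2. A sheaf on `X` for which the monodromy over two bases commutes decomposes, over a finite extension,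
  into a tensor product of pull-backs of sheaves from the bases. In particular it is of geometric origin
  if the bases have dimension at most `d`. Examples (`d = 1`): tame sheaves on a product of two curves,
  sheaves on the product of a curve and a projective curve, sheaves that have a virtually abelian
  monodromy on the geometric generic fibre over a curve, for instance all lisse sheaves on abelian schemes
  over curves and on projective surfaces with an elliptic fibration.

  Proof. Clifford theory: over a finite extension the sheaf is isotypic on the geometric generic fibre,
  hence it is projectively a tensor product; the projective factors lift to sheaves.

3. The question for all sheaves is equivalent to the question for primitive sheaves: over every finite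
  extension of `K` they are irreducible or scalar on every normal subgroup, and they are irreducible on the
  geometric generic fibre of every fibration over a base of dimension at most `d`.
-/

set_option autoImplicit false

open Pool.Agent.L5helper68.GD Pool.Agent.L5helper68.FB

namespace Pool.Agent.Results.MP_80bee4_ag.GenericFibres

/-- **Geometric origin and fibrations.** Suppose that over all finitely generated fields of
characteristic `p` and transcendence degree at most `d` the members of `𝓒` are in `𝓖`. Then

1. a member of `𝓒` over any finitely generated field is in `𝓖` if on the geometric generic fibre of some
  fibration over a base of dimension at most `d` it has a constituent in common with a member of `𝓒` and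
  `𝓖`;
2. a member of `𝓒` for which the monodromies over two bases commute splits into sheaves from the two
  bases, and it is in `𝓖` if the dimensions of the bases are at most `d`;
3. for every `e`: all members of `𝓒` in dimension at most `e` are in `𝓖` if and only if the primitive
  members are. -/
theorem result (p : ℕ) [Fact p.Prime] {Ω : Type} [Field Ω] [IsAlgClosed Ω] {𝓒 𝓖 : Cls Ω}
    (h𝓒 : SheafClass p 𝓒) (h𝓖 : Closed p 𝓖) (d : ℕ) (hd : UpTo p d 𝓒 𝓖) :
    Fibre p d 𝓒 𝓖 ∧ Commuting p d 𝓒 𝓖 ∧
    ∀ e : ℕ, UpTo p e (Primitive p d 𝓒) 𝓖 ↔ UpTo p e 𝓒 𝓖 :=
  ⟨generic_final h𝓒 h𝓖 hd, commuting_final h𝓒 h𝓖 hd, primitive_iff h𝓒 h𝓖 hd⟩

end Pool.Agent.Results.MP_80bee4_ag.GenericFibres
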