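import Pool.Agent.L5helper68.GD.Fn

/-!
# The question for all varieties of dimension at most `d` is the question for open subsets of the affine
# space over the prime field (MP_80bee4_ag)

`𝓒` is a class of irreducible representations of the absolute Galois groups of fields of characteristic
`p` which is stable under passing to the irreducible constituents of restrictions to finitely generated
extensions and of representations induced from finite extensions. An example is the class in the
question: the continuous irreducible representations with determinant of finite order, of Galois groups
of function fields of varieties over finite fields, which are unramified over some nonempty open
subvariety. (That the determinants remain of finite order is a theorem of Deligne.)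

The formal properties of `ℓ`-adic cohomology that are used (`IsEtaleTheory`) are: the invariance under
extensions of algebraically closed fields, the induced representation for finite extensions, the
Künneth formula (which is not needed here) and Deligne's generic base change theorem. The theorem that
geometric origin descends along finitely generated extensions is `GeneratedFromCurves`.
-/

set_option autoImplicit false

open Pool.Agent.L5helper68.GD

namespace Pool.Agent.Results.MP_80bee4_ag.PrimeRationalFunctionField

/-- **Geometric origin: the affine space over the prime field, and potential properties.** Let `𝓒` be a
stable class of irreducible representations, for instance the one in the question, and let `𝓟` be a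
subclass such that every member of `𝓒` has, over a finite extension of the field, an irreducible
constituent in `𝓟` (for instance those whose restrictions to all finite extensions are irreducible, with
pro-`ℓ` image, tamely and unipotently ramified along a divisor with normal crossings). The following are
equivalent for every `d`.

1. The representations in `𝓒` of the Galois group of the single field `F_p(t_1, …, t_d)` are of geometric
  origin.
2. The representations in `𝓒` of the Galois groups of all finitely generated fields of characteristic `p`
  and transcendence degree at most `d` are of geometric origin.
3. The same for the representations in `𝓟`. -/
theorem result (p : ℕ) [Fact p.Prime] {Ω : Type} [Field Ω] {H : Coh Ω} {χ : Cyc Ω} {𝓒 𝓟 : Cls Ω}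
    (hE : IsEtaleTheory p H χ) (h𝓒 : IsStable p 𝓒) (hP : Potentially p 𝓒 𝓟)
    (hsub : Contained p 𝓒 𝓟) (d : ℕ) :
    List.TFAE [AllGO 𝓒 H χ (RatFn p d), AllGOUpTo p 𝓒 H χ d, AllGOUpTo p 𝓟 H χ d] :=
  main_tfae p hE h𝓒 hP hsub d

end Pool.Agent.Results.MP_80bee4_ag.PrimeRationalFunctionField
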