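import Pool.Agent.L5helper68.GO.Main

/-!
# Representations of geometric origin and trilinear forms (MP_80bee4_ag)

`K` is any field (in the problem: the function field of the variety, or its perfection, which has the same
Galois group and the same étale cohomology), `C` is the category of the continuous finite-dimensional
`ℓ`-adic representations of its Galois group, `A⟦n⟧` is the Tate twist `A(n)`, `H X i` is the cohomology
`H^i(X ⊗ K̄, ℚ̄_ℓ)` and `Hc X i` is the cohomology with compact support.
-/

set_option autoImplicit false

open CategoryTheory AlgebraicGeometry Pool.Agent.Y116.UV Pool.Agent.Z125.UN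
  Pool.Agent.L5helper68.GO

namespace Pool.Agent.Results.MP_80bee4_ag.TrilinearHypersurfaces

universe v u

/-- **Representations of geometric origin and trilinear forms.** Let `ρ` be irreducible.

(1) For every set `G` which generates the field `K`: some Tate twist of `ρ` is a subquotient of the
cohomology of some separated scheme of finite type over `K` if and only if some Tate twist of `ρ` is a
subquotient of the cohomology of a smooth affine cubic hypersurface `T(x, y, z) = 1`, for a trilinear form
`T` all of whose coefficients are `0`, `1` or elements of `G`.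

(2) If `K` is perfect, then for every `n`: some Tate twist of `ρ` is a subquotient of the cohomology of a
scheme of dimension at most `n` if and only if some Tate twist of `ρ` is a subquotient of the cohomology
of a hypersurface `T(x, y, z) = 1` where one of the three blocks of variables of `T` has at most `n + 2`
variables. -/
theorem result {K : Type} [Field K] {C : Type u} [Category.{v} C] [Abelian C] [HasShift C ℤ]
    {H Hc : Sch K → ℕ → C} {D : C → C} (hE : IsEtaleCohomology H Hc D) (ρ : C) [Simple ρ] :
    (∀ G : Set K, Subfield.closure G = ⊤ →
      ((∃ Y : Sch K, FT True Y ∧ OccursIn H ρ Y) ↔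
        ∃ (a b c : ℕ) (T : Fin a → Fin b → Fin c → K),
          (∀ i j k, T i j k = 0 ∨ T i j k = 1 ∨ T i j k ∈ G) ∧ OccursIn H ρ (hypS T))) ∧
    (PerfectField K → ∀ n : ℕ,
      ((∃ Y : Sch K, FT True Y ∧ topologicalKrullDim Y.left ≤ n ∧ OccursIn H ρ Y) ↔
        ∃ (a b c : ℕ) (T : Fin a → Fin b → Fin c → K),
          (a ≤ n + 2 ∨ b ≤ n + 2 ∨ c ≤ n + 2) ∧ OccursIn H ρ (hypS T))) ∧
    ∀ (a b c : ℕ) (T : Fin a → Fin b → Fin c → K), Smooth (hypS T).hom :=
  ⟨fun _ hG => main_all hE ρ hG, fun _ n => main_dim hE ρ n, fun _ _ _ T => smooth_hypS T⟩

end Pool.Agent.Results.MP_80bee4_ag.TrilinearHypersurfaces
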